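import Pool.Agent.W787.QC.Defs

/-!
# Project QC: Fourier inversion for smooth compactly supported functions
-/

set_option autoImplicit false

open MeasureTheory Set Metric Filter Topology Real
open scoped ContDiff FourierTransform SchwartzMap

namespace Pool.Agent.W585.QC.FB

open Pool.Agent.W787.QC

/-- QC-FB -/
theorem fb : S_FB := by
  intro Φ h1 h2
  have h3 : ContDiff ℝ ∞ (fun x => (Φ x : ℂ)) := Complex.ofRealCLM.contDiff.comp h1
  have h4 : HasCompactSupport (fun x => (Φ x : ℂ)) :=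
    h2.comp_left (g := fun x : ℝ => (x : ℂ)) Complex.ofReal_zero
  obtain ⟨f, hf⟩ : ∃ f : 𝓢(E, ℂ), ∀ x, f x = (Φ x : ℂ) := ⟨h4.toSchwartzMap h3, fun x => rfl⟩
  have hc : Continuous f := f.continuous
  have hi : Integrable f := f.integrable
  obtain ⟨g, hg⟩ : ∃ g : 𝓢(E, ℂ), (g : E → ℂ) = 𝓕 (f : E → ℂ) := ⟨𝓕 f, rfl⟩
  have hgi : Integrable (𝓕 (f : E → ℂ)) := by
    rw [← hg]
    exact g.integrable
  have hinv := hc.fourierInv_fourier_eq hi hgi
  refine ⟨g, ⟨g.continuous, fun k => g.integrable_pow_mul volume k⟩, fun x => ?_⟩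
  have h5 : (Φ x : ℂ) = 𝓕⁻ (g : E → ℂ) x := by
    rw [hg, hinv, hf]
  rw [Real.fourierInv_eq'] at h5
  have h6 : (∫ ξ, g ξ * Complex.exp (2 * π * Complex.I * ((inner ℝ ξ x : ℝ) : ℂ))) = (Φ x : ℂ) := by
    rw [h5]
    refine integral_congr_ae (Eventually.of_forall fun ξ => ?_)
    simp only [smul_eq_mul]
    rw [mul_comm]
    congr 2
    push_cast
    ring
  rw [FI, h6, Complex.ofReal_re]

end Pool.Agent.W585.QC.FB
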